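import Pool.Agent.H699.MW.Defs

/-! Domination is preserved by one level and by all later levels. -/

set_option autoImplicit false

open MeasureTheory Finset Filter Topology

namespace Pool.Agent.H402.MW.DOM

open Pool.Agent.H699.MW

/-- comparison of closed half lines -/
theorem ici_le {νm νp : Measure ℝ} [IsProbabilityMeasure νm] [IsProbabilityMeasure νp] {S : ℝ}
    (h0 : νm (Set.Iio 0) = 0) (h : Dom S νm νp) (y : ℝ) :
    νp (Set.Ici y) ≤ νm (Set.Ici (y - S)) := by
  rcases le_or_gt (y - S) 0 with hy | hy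
  · have h1 : νm (Set.Ici (0 : ℝ)) = 1 := by
      rw [← Set.compl_Iio]
      exact (prob_compl_eq_one_iff measurableSet_Iio).2 h0
    calc νp (Set.Ici y) ≤ 1 := prob_le_one
      _ = νm (Set.Ici (0 : ℝ)) := h1.symm
      _ ≤ νm (Set.Ici (y - S)) := measure_mono (Set.Ici_subset_Ici.2 hy)
  · obtain ⟨z, hz⟩ : ∃ z, z = y - S := ⟨_, rfl⟩
    rw [← hz] at hy ⊢
    have hlim0 : Tendsto (fun n : ℕ => (1 : ℝ) / ((n : ℝ) + 1)) atTop (𝓝 0) :=
      tendsto_one_div_add_atTop_nhds_zero_nat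
    have hinter : ⋂ n : ℕ, Set.Ioi (z - 1 / ((n : ℝ) + 1)) = Set.Ici z := by
      ext x
      simp only [Set.mem_iInter, Set.mem_Ioi, Set.mem_Ici]
      constructor
      · intro hx
        have h2 : Tendsto (fun n : ℕ => z - 1 / ((n : ℝ) + 1)) atTop (𝓝 (z - 0)) :=
          tendsto_const_nhds.sub hlim0
        rw [sub_zero] at h2
        exact le_of_tendsto' h2 fun n => (hx n).le
      · intro hx n
        have h2 : (0 : ℝ) < 1 / ((n : ℝ) + 1) := by positivity
        linarith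
    have hlim : Tendsto (fun n : ℕ => νm (Set.Ioi (z - 1 / ((n : ℝ) + 1)))) atTop
        (𝓝 (νm (Set.Ici z))) := by
      rw [← hinter]
      refine tendsto_measure_iInter_atTop (fun n => measurableSet_Ioi.nullMeasurableSet) ?_
        ⟨0, measure_ne_top _ _⟩
      intro n n' hn
      refine Set.Ioi_subset_Ioi ?_
      have h2 : (n : ℝ) ≤ n' := by exact_mod_cast hn
      have h3 : 1 / ((n' : ℝ) + 1) ≤ 1 / ((n : ℝ) + 1) :=
        one_div_le_one_div_of_le (by positivity) (by linarith)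
      linarith
    refine ge_of_tendsto hlim ?_
    filter_upwards [hlim0.eventually_lt_const hy] with n hn
    have h2 := h (z - 1 / ((n : ℝ) + 1)) (by linarith)
    have h3 : νp (Set.Ioi (z - 1 / ((n : ℝ) + 1) + S)) ≤ νm (Set.Ioi (z - 1 / ((n : ℝ) + 1))) :=
      (ENNReal.toReal_le_toReal (measure_ne_top _ _) (measure_ne_top _ _)).1 h2
    refine le_trans (measure_mono ?_) h3
    intro x hx
    have h4 : (0 : ℝ) < 1 / ((n : ℝ) + 1) := by positivity
    have h5 : y ≤ x := hx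
    show z - 1 / ((n : ℝ) + 1) + S < x
    linarith

theorem fub {μ ν : Measure ℝ} [IsProbabilityMeasure μ] [IsProbabilityMeasure ν] (t : ℝ) :
    (μ.prod ν) {p | p.1 - p.2 ≤ t} = ∫⁻ w, ν (Set.Ici (w - t)) ∂μ := by
  rw [Measure.prod_apply (measurableSet_le (by fun_prop) (by fun_prop))]
  refine lintegral_congr fun w => ?_
  have h1 : Prod.mk w ⁻¹' {p : ℝ × ℝ | p.1 - p.2 ≤ t} = Set.Ici (w - t) := by
    ext x
    show w - x ≤ t ↔ w - t ≤ x
    constructor <;> intro h <;> linarith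
  rw [h1]

theorem factor_le {μ νm νp : Measure ℝ} [IsProbabilityMeasure μ] [IsProbabilityMeasure νm]
    [IsProbabilityMeasure νp] {S : ℝ} (h0 : νm (Set.Iio 0) = 0) (h : Dom S νm νp) (t : ℝ) :
    (μ.prod νp).real {p | p.1 - p.2 ≤ t} ≤ (μ.prod νm).real {p | p.1 - p.2 ≤ t + S} := by
  refine ENNReal.toReal_mono (measure_ne_top _ _) ?_
  rw [fub, fub]
  refine lintegral_mono fun w => ?_
  have h1 := ici_le h0 h (w - t)
  rw [sub_sub] at h1
  exact h1

theorem ioi_eq {ν : Measure ℝ} [IsProbabilityMeasure ν] (t : ℝ) :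
    ν.real (Set.Ioi t) = 1 - ν.real (Set.Iic t) := by
  rw [← Set.compl_Iic, probReal_compl_eq_one_sub measurableSet_Iic]

theorem t_DOM : S_CDF → S_DOM := by
  intro hCDF μ k νm νp S hμ _ hm hp h0 hS hD t ht
  obtain ⟨hm1, hm2⟩ := hCDF μ k νm hμ hm
  obtain ⟨hp1, hp2⟩ := hCDF μ k νp hμ hp
  rw [ioi_eq, ioi_eq, hm2 (t + S) (by linarith), hp2 t ht]
  have h1 : ∏ i, (μ.prod (νp i)).real {p | p.1 - p.2 ≤ t} ≤
      ∏ i, (μ.prod (νm i)).real {p | p.1 - p.2 ≤ t + S} :=
    Finset.prod_le_prod (fun i _ => measureReal_nonneg) fun i _ => factor_le (h0 i) (hD i) t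
  linarith

theorem t_PRE : S_LPR → S_DOM → S_PRE := by
  intro hLPR hDOM μ a b hG d m S hS hm n hn
  have hμ : IsProbabilityMeasure μ := ⟨hG.prob⟩
  induction n, hn using Nat.le_induction with
  | base => exact hm
  | succ n hn ih =>
    rintro ⟨k, c⟩ hT
    have hT' : k ≤ d ∧ ∀ i, (c i).Wd d := hT
    have h1 := hDOM μ k (fun i => law μ b n (c i) false) (fun i => law μ b n (c i) true) S hμ
      hG.atoms (fun i => (hLPR μ a b hG n (c i)).1 false) (fun i => (hLPR μ a b hG n (c i)).1 true)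
      (fun i => ?_) hS (fun i => ih (c i) (hT'.2 i))
    · exact h1
    · obtain ⟨-, h2, -, -, h3, -⟩ := hLPR μ a b hG n (c i)
      exact measure_mono_null (Set.Iio_subset_Iio h2) (h3 false)

end Pool.Agent.H402.MW.DOM
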